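import Pool.Agent.Helper15.FC.St5
import Pool.Agent.Helper36.FC.M_BKD

set_option autoImplicit false

/-!
# Project FC, module GEV (helper10): the value of the numerator at `1/q`
-/

open Polynomial

namespace Pool.Agent.Helper10.FC

open Pool.Agent.Helper15.FC

open scoped Classical in
private theorem sum_mob_cop {F : Type} [Field F] [Fintype F] (hMOB : StMOB) (x m : F[X])
    (hm : m.Monic) :
    ∑ c ∈ (Dv m).filter (fun c => c ∣ x), mob c = if IsCoprime x m then 1 else 0 := by
  have hg0 : EuclideanDomain.gcd x m ≠ 0 := by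
    intro h
    exact hm.ne_zero (EuclideanDomain.gcd_eq_zero_iff.1 h).2
  have hg : (normalize (EuclideanDomain.gcd x m)).Monic := Polynomial.monic_normalize hg0
  have hset : (Dv m).filter (fun c => c ∣ x) = Dv (normalize (EuclideanDomain.gcd x m)) := by
    ext c
    rw [Finset.mem_filter, mem_Dv hm.ne_zero, mem_Dv hg.ne_zero, dvd_normalize_iff]
    constructor
    · rintro ⟨⟨h1, h2⟩, h3⟩
      exact ⟨h1, EuclideanDomain.dvd_gcd h3 h2⟩
    · rintro ⟨h1, h2⟩
      exact ⟨⟨h1, h2.trans (EuclideanDomain.gcd_dvd_right x m)⟩,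
        h2.trans (EuclideanDomain.gcd_dvd_left x m)⟩
  rw [hset]
  by_cases hco : IsCoprime x m
  · rw [if_pos hco]
    have h1 : IsUnit (EuclideanDomain.gcd x m) := EuclideanDomain.gcd_isUnit_iff.2 hco
    have h2 : normalize (EuclideanDomain.gcd x m) = 1 := normalize_eq_one.2 h1
    rw [h2]
    exact (hMOB F).1
  · rw [if_neg hco]
    refine (hMOB F).2 _ hg ?_
    intro h
    exact hco (EuclideanDomain.gcd_isUnit_iff.1 (normalize_eq_one.1 h))

open scoped Classical in
private theorem card_dvd {F : Type} [Field F] [Fintype F] {c : F[X]} (hc : c.Monic) {n : ℕ}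
    (hn : c.natDegree ≤ n) :
    ((Lw F n).filter (fun x => c ∣ x)).card = Fintype.card F ^ (n - c.natDegree) := by
  have h : (Lw F n).filter (fun x => c ∣ x) = (Lw F (n - c.natDegree)).image (fun y => c * y) := by
    ext x
    rw [Finset.mem_filter, Finset.mem_image, mem_Lw]
    constructor
    · rintro ⟨h1, y, rfl⟩
      refine ⟨y, ?_, rfl⟩
      rw [mem_Lw]
      by_cases hy : y = 0
      · rw [hy, Polynomial.degree_zero]
        exact WithBot.bot_lt_coe _
      · rw [Polynomial.degree_mul, Polynomial.degree_eq_natDegree hc.ne_zero,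
          Polynomial.degree_eq_natDegree hy] at h1
        rw [Polynomial.degree_eq_natDegree hy]
        have h2 : c.natDegree + y.natDegree < n := by exact_mod_cast h1
        exact_mod_cast (by omega : y.natDegree < n - c.natDegree)
    · rintro ⟨y, hy, rfl⟩
      refine ⟨?_, dvd_mul_right _ _⟩
      rw [mem_Lw] at hy
      by_cases hy0 : y = 0
      · rw [hy0, mul_zero, Polynomial.degree_zero]
        exact WithBot.bot_lt_coe _
      · rw [Polynomial.degree_eq_natDegree hy0] at hy
        have h2 : y.natDegree < n - c.natDegree := by exact_mod_cast hy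
        rw [Polynomial.degree_mul, Polynomial.degree_eq_natDegree hc.ne_zero,
          Polynomial.degree_eq_natDegree hy0]
        exact_mod_cast (by omega : c.natDegree + y.natDegree < n)
  rw [h, Finset.card_image_of_injective, card_Lw]
  exact fun a b hab => mul_left_cancel₀ hc.ne_zero hab

private theorem phi_int {F : Type} [Field F] [Fintype F] (hMOB : StMOB) (m : F[X])
    (hm : m.Monic) : (phi m : ℤ) =
      ∑ c ∈ Dv m, mob c * (Fintype.card F : ℤ) ^ (m.natDegree - c.natDegree) := by
  classical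
  have h1 : (phi m : ℤ) = ∑ x ∈ Lw F m.natDegree, if IsCoprime x m then (1 : ℤ) else 0 := by
    unfold phi
    rw [Finset.card_filter]
    push_cast
    rfl
  rw [h1]
  have h2 : ∀ x ∈ Lw F m.natDegree, (if IsCoprime x m then (1 : ℤ) else 0) =
      ∑ c ∈ Dv m, if c ∣ x then mob c else 0 := by
    intro x _
    rw [← Finset.sum_filter, sum_mob_cop hMOB x m hm]
  rw [Finset.sum_congr rfl h2, Finset.sum_comm]
  refine Finset.sum_congr rfl fun c hc => ?_
  obtain ⟨hc1, hc2⟩ := (mem_Dv hm.ne_zero).1 hc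
  rw [← Finset.sum_filter, Finset.sum_const, nsmul_eq_mul,
    card_dvd hc1 (Polynomial.natDegree_le_of_dvd hc2 hm.ne_zero)]
  push_cast
  ring

private theorem phi_real {F : Type} [Field F] [Fintype F] (hMOB : StMOB) (m : F[X])
    (hm : m.Monic) : ∑ c ∈ Dv m, (mob c : ℝ) * (qr F)⁻¹ ^ c.natDegree =
      (phi m : ℝ) / qr F ^ m.natDegree := by
  have hq : qr F ≠ 0 := Helper36.FC.qr_pos.ne'
  have h1 : (phi m : ℝ) =
      ∑ c ∈ Dv m, (mob c : ℝ) * qr F ^ (m.natDegree - c.natDegree) := by
    have h := congrArg (fun z : ℤ => (z : ℝ)) (phi_int hMOB m hm)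
    push_cast at h
    exact h
  rw [h1, Finset.sum_div]
  refine Finset.sum_congr rfl fun c hc => ?_
  obtain ⟨hc1, hc2⟩ := (mem_Dv hm.ne_zero).1 hc
  have h2 := Polynomial.natDegree_le_of_dvd hc2 hm.ne_zero
  have h3 : qr F ^ m.natDegree = qr F ^ (m.natDegree - c.natDegree) * qr F ^ c.natDegree := by
    rw [← pow_add, Nat.sub_add_cancel h2]
  rw [h3, inv_pow]
  have h4 : qr F ^ (m.natDegree - c.natDegree) ≠ 0 := pow_ne_zero _ hq
  have h5 : qr F ^ c.natDegree ≠ 0 := pow_ne_zero _ hq
  field_simp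

private theorem pe_eval {F : Type} [Field F] [Fintype F] (hMOB : StMOB) {d e : F[X]}
    (hd : d.Monic) (he : e ∈ Dv d) :
    (Helper36.FC.Pe d e).eval (qr F)⁻¹ = (qr F)⁻¹ ^ e.natDegree *
      ((phi (d / e) : ℝ) / qr F ^ (d / e).natDegree) := by
  obtain ⟨-, h2, -, -, -⟩ := Helper36.FC.dv_div hd he
  rw [← phi_real hMOB (d / e) h2, Finset.mul_sum]
  unfold Helper36.FC.Pe
  rw [Polynomial.eval_finsetSum]
  refine Finset.sum_congr rfl fun c _ => ?_
  rw [Polynomial.eval_monomial, pow_add]
  ring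

private theorem sum_flip {F : Type} [Field F] [Fintype F] {d : F[X]} (hd : d.Monic)
    (g : F[X] → ℝ) : ∑ e ∈ Dv d, g (d / e) = ∑ e ∈ Dv d, g e := by
  have hmem : ∀ e ∈ Dv d, d / e ∈ Dv d := by
    intro e he
    obtain ⟨-, h2, h3, -, -⟩ := Helper36.FC.dv_div hd he
    exact (mem_Dv hd.ne_zero).2 ⟨h2, ⟨e, by rw [mul_comm]; exact h3.symm⟩⟩
  have hinv : ∀ e ∈ Dv d, d / (d / e) = e := by
    intro e he
    obtain ⟨h1, h2, h3, -, -⟩ := Helper36.FC.dv_div hd he
    have h4 : (d / e) * (d / (d / e)) = d := (Helper36.FC.dv_div hd (hmem e he)).2.2.1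
    have h5 : (d / e) * (d / (d / e)) = (d / e) * e := by rw [h4, mul_comm]; exact h3.symm
    exact mul_left_cancel₀ h2.ne_zero h5
  exact Finset.sum_nbij' (fun e => d / e) (fun e => d / e) hmem hmem hinv hinv (fun e _ => rfl)

theorem hGEV (hDKR : StDKR) (hGCC : StGCC) (hBKD : StBKD) (hMOB : StMOB) : StGEV := by
  intro F _ _ k
  have hq : qr F ≠ 0 := Helper36.FC.qr_pos.ne'
  induction k with
  | zero =>
    intro d Nn hd h
    rw [pow_zero, mul_one] at h
    by_cases h1 : d = 1
    · have h2 : Nn = 1 := by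
        apply Polynomial.coe_inj.1
        rw [← h, Polynomial.coe_one]
        ext n
        rw [PowerSeries.coeff_mk, PowerSeries.coeff_one]
        by_cases hn : n = 0
        · rw [(Helper36.FC.bkd_zero hDKR d hd n).1 ⟨h1, hn⟩, if_pos hn]
        · rw [(Helper36.FC.bkd_zero hDKR d hd n).2 (fun h => hn h.2), if_neg hn]
      rw [h2, h1, Polynomial.eval_one]
      simp [Gk]
    · have h2 : Nn = 0 := by
        apply Polynomial.coe_inj.1
        rw [← h, Polynomial.coe_zero]
        ext n
        rw [PowerSeries.coeff_mk, (Helper36.FC.bkd_zero hDKR d hd n).2 (fun h => h1 h.1)]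
        simp
      rw [h2, Polynomial.eval_zero]
      simp [Gk, h1]
  | succ k ih =>
    intro d Nn hd h
    have hch : ∀ e : F[X], ∃ N : ℝ[X], e ∈ Dv d →
      PowerSeries.mk (fun n => Bkd k (d / e) n) * (1 - PowerSeries.C (qr F) * PowerSeries.X) ^ k =
        (N : PowerSeries ℝ) := by
      intro e
      by_cases he : e ∈ Dv d
      · obtain ⟨N, -, hN, -⟩ := hBKD F k (d / e) (Helper36.FC.dv_div hd he).2.1
        exact ⟨N, fun _ => hN⟩
      · exact ⟨0, fun h => absurd h he⟩
    choose N hN using hch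
    have hB : PowerSeries.mk (fun n => Bkd (k + 1) d n) = ∑ e ∈ Dv d,
        ((Helper36.FC.Pe d e : PowerSeries ℝ) * Helper36.FC.Geo (qr F)) *
          PowerSeries.mk (fun n => Bkd k (d / e) n) := by
      ext n
      rw [PowerSeries.coeff_mk, hGCC F k n d hd, map_sum, Finset.sum_comm]
      refine Finset.sum_congr rfl fun e _ => ?_
      rw [PowerSeries.coeff_mul, Finset.Nat.sum_antidiagonal_eq_sum_range_succ_mk]
      refine Finset.sum_congr rfl fun i _ => ?_
      rw [Helper36.FC.pe_series, PowerSeries.coeff_mk]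
    have hNn : Nn = ∑ e ∈ Dv d, Helper36.FC.Pe d e * N e := by
      apply Polynomial.coe_inj.1
      rw [← h, hB, Finset.sum_mul]
      have h2 : ((∑ e ∈ Dv d, Helper36.FC.Pe d e * N e : ℝ[X]) : PowerSeries ℝ) =
          ∑ e ∈ Dv d, (Helper36.FC.Pe d e : PowerSeries ℝ) * (N e : PowerSeries ℝ) := by
        have h3 : ((∑ e ∈ Dv d, Helper36.FC.Pe d e * N e : ℝ[X]) : PowerSeries ℝ) =
          Polynomial.coeToPowerSeries.ringHom (∑ e ∈ Dv d, Helper36.FC.Pe d e * N e : ℝ[X]) := rfl
        rw [h3, map_sum]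
        refine Finset.sum_congr rfl fun e _ => ?_
        rw [map_mul]
        rfl
      rw [h2]
      refine Finset.sum_congr rfl fun e he => ?_
      have h4 := Helper36.FC.geo_mul (qr F)
      rw [← hN e he, pow_succ]
      calc (Helper36.FC.Pe d e : PowerSeries ℝ) * Helper36.FC.Geo (qr F) *
            PowerSeries.mk (fun n => Bkd k (d / e) n) *
            ((1 - PowerSeries.C (qr F) * PowerSeries.X) ^ k *
              (1 - PowerSeries.C (qr F) * PowerSeries.X))
          = (Helper36.FC.Pe d e : PowerSeries ℝ) * (PowerSeries.mk (fun n => Bkd k (d / e) n) *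
            (1 - PowerSeries.C (qr F) * PowerSeries.X) ^ k) *
              (Helper36.FC.Geo (qr F) * (1 - PowerSeries.C (qr F) * PowerSeries.X)) := by ring
        _ = _ := by rw [h4, mul_one]
    rw [hNn, Polynomial.eval_finsetSum]
    have hterm : ∀ e ∈ Dv d, (Helper36.FC.Pe d e * N e).eval (qr F)⁻¹ =
        (qr F ^ d.natDegree)⁻¹ * ((fun e' : F[X] => (phi e' : ℝ) / qr F ^ e'.natDegree *
          Gk k e') (d / e)) := by
      intro e he
      obtain ⟨-, h2, -, h4, -⟩ := Helper36.FC.dv_div hd he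
      rw [Polynomial.eval_mul, pe_eval hMOB hd he, ih (d / e) (N e) h2 (hN e he), ← h4, pow_add,
        mul_inv, inv_pow]
      ring
    rw [Finset.sum_congr rfl hterm, ← Finset.mul_sum,
      sum_flip hd (fun e' : F[X] => (phi e' : ℝ) / qr F ^ e'.natDegree * Gk k e'), mul_comm]
    rfl

end Pool.Agent.Helper10.FC
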