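import Pool.Agent.Helper15.FC.St3

set_option autoImplicit false

/-!
# Project FC, module MQH (helper10): the main term as a sum over the characters modulo `X^m`
-/

open Polynomial

namespace Pool.Agent.Helper10.FC

open Pool.Agent.Helper15.FC

open scoped Classical in
/-- all pairs ` (r, ν)` with `ν` primitive modulo `r`, `deg r ≤ Q` -/
private noncomputable def SS (F : Type) [Field F] [Fintype F] (Q : ℕ) :
    Finset (Σ _ : F[X], AddChar F[X] ℂ) :=
  ((Finset.range (Q + 1)).biUnion (fun i => Mn F i)).sigma (fun r => Pr r)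

private theorem sum_SS {F : Type} [Field F] [Fintype F] (Q : ℕ)
    (g : F[X] → AddChar F[X] ℂ → ℂ) :
    ∑ i ∈ Finset.range (Q + 1), ∑ r ∈ Mn F i, ∑ ν ∈ Pr r, g r ν = ∑ x ∈ SS F Q, g x.1 x.2 := by
  classical
  unfold SS
  rw [Finset.sum_sigma, Finset.sum_biUnion]
  intro i _ j _ hij
  exact Finset.disjoint_left.2
    (fun r h1 h2 => hij ((mem_Mn.1 h1).2.symm.trans (mem_Mn.1 h2).2))

private theorem mem_SS {F : Type} [Field F] [Fintype F] {Q : ℕ}
    {x : Σ _ : F[X], AddChar F[X] ℂ} (hx : x ∈ SS F Q) :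
    x.1.Monic ∧ x.1.natDegree ≤ Q ∧ x.2 ∈ Pr x.1 := by
  classical
  unfold SS at hx
  rw [Finset.mem_sigma, Finset.mem_biUnion] at hx
  obtain ⟨⟨i, hi, hr⟩, hν⟩ := hx
  refine ⟨(mem_Mn.1 hr).1, ?_, hν⟩
  rw [(mem_Mn.1 hr).2]
  exact Nat.lt_succ_iff.1 (Finset.mem_range.1 hi)

/-- the character modulo `X^m` that agrees with `ν` in degrees `< m` -/
private noncomputable def red {F : Type} [Field F] (m : ℕ) (ν : AddChar F[X] ℂ) :
    AddChar F[X] ℂ where
  toFun f := ν (f %ₘ X ^ m)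
  map_zero_eq_one' := by
    rw [Polynomial.zero_modByMonic, AddChar.map_zero_eq_one]
  map_add_eq_mul' a b := by
    rw [Polynomial.add_modByMonic, AddChar.map_add_eq_mul]

private theorem red_apply {F : Type} [Field F] (m : ℕ) (ν : AddChar F[X] ℂ) (f : F[X]) :
    red m ν f = ν (f %ₘ X ^ m) := rfl

private theorem eq_red {F : Type} [Field F] [Fintype F] (m : ℕ) (ν η : AddChar F[X] ℂ)
    (h1 : η ∈ AC (X ^ m : F[X])) (h2 : ∀ g ∈ Lw F m, η g = ν g) : η = red m ν := by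
  apply AddChar.ext
  intro f
  have hm : (X ^ m : F[X]).Monic := Polynomial.monic_X_pow m
  have h3 : f %ₘ X ^ m ∈ Lw F m := by
    rw [mem_Lw]
    have := Polynomial.degree_modByMonic_lt f hm
    rwa [Polynomial.degree_X_pow] at this
  rw [red_apply, ← h2 _ h3]
  conv_lhs => rw [← Polynomial.modByMonic_add_div f (X ^ m : F[X])]
  rw [AddChar.map_add_eq_mul]
  have h4 : η (X ^ m * (f /ₘ X ^ m)) = 1 := h1 _
  rw [h4, mul_one]

private theorem red_mem {F : Type} [Field F] [Fintype F] (m : ℕ) (ν : AddChar F[X] ℂ) :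
    red m ν ∈ AC (X ^ m : F[X]) ∧ ∀ g ∈ Lw F m, red m ν g = ν g := by
  have hm : (X ^ m : F[X]).Monic := Polynomial.monic_X_pow m
  constructor
  · intro g
    rw [red_apply]
    have : (X ^ m * g) %ₘ X ^ m = 0 := by
      rw [Polynomial.modByMonic_eq_zero_iff_dvd hm]
      exact dvd_mul_right _ _
    rw [this, AddChar.map_zero_eq_one]
  · intro g hg
    rw [red_apply]
    have : g %ₘ X ^ m = g := by
      rw [Polynomial.modByMonic_eq_self_iff hm, Polynomial.degree_X_pow]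
      exact mem_Lw.1 hg
    rw [this]

private theorem neg_mem {F : Type} [Field F] [Fintype F] {m : ℕ} {h : F[X]} (hh : h ∈ Lw F m) :
    -h ∈ Lw F m := by
  rw [mem_Lw, Polynomial.degree_neg]
  exact mem_Lw.1 hh

open scoped Classical in
private theorem sum_one {F : Type} [Field F] [Fintype F] (hACF : StACF) (m : ℕ)
    (ν : AddChar F[X] ℂ) (h : F[X]) (hh : h ∈ Lw F m) (a : ℂ) :
    ∑ η ∈ ACf (X ^ m : F[X]), (if (∀ g ∈ Lw F m, η g = ν g) then a else 0) * η (-h) =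
      a * ν (-h) := by
  have hm : (X ^ m : F[X]).Monic := Polynomial.monic_X_pow m
  have hmem := (((hACF F).2 _ hm).2.1)
  obtain ⟨h1, h2⟩ := red_mem m ν
  rw [Finset.sum_eq_single (red m ν)]
  · rw [if_pos h2, h2 _ (neg_mem hh)]
  · intro η hη hne
    rw [if_neg, zero_mul]
    intro hP
    exact hne (eq_red m ν η ((hmem η).1 hη) hP)
  · intro hno
    exact absurd ((hmem _).2 h1) hno

open scoped Classical in
private theorem Me_eq {F : Type} [Field F] [Fintype F] (k n m Q : ℕ) (η : AddChar F[X] ℂ)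
    (G : F[X]) : Me k n m Q η G = ∑ x ∈ SS F Q, if (∀ g ∈ Lw F m, η g = x.2 g) then
      x.2 (-(X ^ m * G)) * ((Fintype.card F : ℂ) ^ (n - m))⁻¹ * Sn k n x.2 else 0 := by
  unfold Me
  rw [← sum_SS Q (fun (r : F[X]) (ν : AddChar F[X] ℂ) => if (∀ g ∈ Lw F m, η g = ν g) then
      ν (-(X ^ m * G)) * ((Fintype.card F : ℂ) ^ (n - m))⁻¹ * Sn k n ν else 0)]
  refine Finset.sum_congr rfl fun i _ => Finset.sum_congr rfl fun r _ => ?_
  rw [Finset.sum_filter]

open scoped Classical in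
private theorem inner {F : Type} [Field F] [Fintype F] (hACF : StACF) (hUNI : StUNI)
    (k l n m Q : ℕ) (H0 : F[X]) (hQ : 2 * Q ≤ m) (η : AddChar F[X] ℂ) :
    ∑ G ∈ Mn F (n - m), (starRingEnd ℂ) (Me k n m Q η G) * Me l n m Q η (G + H0) =
      ∑ x ∈ SS F Q, if (∀ g ∈ Lw F m, η g = x.2 g) then
        ((Fintype.card F : ℂ) ^ (n - m))⁻¹ * ((starRingEnd ℂ) (Sn k n x.2) * Sn l n x.2 *
          x.2 (-(X ^ m * H0))) else 0 := by
  by_cases hex : ∃ x0 ∈ SS F Q, ∀ g ∈ Lw F m, η g = x0.2 g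
  · obtain ⟨x0, hx0, hP0⟩ := hex
    have huniq : ∀ x ∈ SS F Q, (∀ g ∈ Lw F m, η g = x.2 g) → x = x0 := by
      intro x hx hP
      obtain ⟨a1, a2, a3⟩ := mem_SS hx
      obtain ⟨b1, b2, b3⟩ := mem_SS hx0
      obtain ⟨c1, c2⟩ := hUNI F m Q x.1 x0.1 x.2 x0.2 hQ a1 b1 a2 b2 a3 b3
        (fun g hg => (hP g hg).symm.trans (hP0 g hg))
      exact Sigma.ext c1 (heq_of_eq c2)
    have hMe : ∀ (k : ℕ) (G : F[X]), Me k n m Q η G =
        x0.2 (-(X ^ m * G)) * ((Fintype.card F : ℂ) ^ (n - m))⁻¹ * Sn k n x0.2 := by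
      intro k G
      rw [Me_eq, Finset.sum_eq_single x0, if_pos hP0]
      · intro x hx hne
        rw [if_neg]
        intro hP
        exact hne (huniq x hx hP)
      · intro hno
        exact absurd hx0 hno
    have hR : (∑ x ∈ SS F Q, if (∀ g ∈ Lw F m, η g = x.2 g) then
        ((Fintype.card F : ℂ) ^ (n - m))⁻¹ * ((starRingEnd ℂ) (Sn k n x.2) * Sn l n x.2 *
          x.2 (-(X ^ m * H0))) else 0) = ((Fintype.card F : ℂ) ^ (n - m))⁻¹ *
          ((starRingEnd ℂ) (Sn k n x0.2) * Sn l n x0.2 * x0.2 (-(X ^ m * H0))) := by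
      rw [Finset.sum_eq_single x0, if_pos hP0]
      · intro x hx hne
        rw [if_neg]
        intro hP
        exact hne (huniq x hx hP)
      · intro hno
        exact absurd hx0 hno
    rw [hR]
    have hq : (Fintype.card F : ℂ) ≠ 0 := by
      exact_mod_cast Fintype.card_ne_zero
    have hterm : ∀ G ∈ Mn F (n - m),
        (starRingEnd ℂ) (Me k n m Q η G) * Me l n m Q η (G + H0) =
        ((Fintype.card F : ℂ) ^ (n - m))⁻¹ * ((Fintype.card F : ℂ) ^ (n - m))⁻¹ *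
          ((starRingEnd ℂ) (Sn k n x0.2) * Sn l n x0.2 * x0.2 (-(X ^ m * H0))) := by
      intro G _
      rw [hMe, hMe]
      have e1 : (starRingEnd ℂ) (x0.2 (-(X ^ m * G))) = x0.2 (X ^ m * G) := by
        rw [((hACF F).1 x0.2 (X ^ m * G)).2, Complex.conj_conj]
      have e2 : x0.2 (-(X ^ m * (G + H0))) = x0.2 (-(X ^ m * G)) * x0.2 (-(X ^ m * H0)) := by
        rw [← AddChar.map_add_eq_mul]
        congr 1
        ring
      have e3 : x0.2 (X ^ m * G) * x0.2 (-(X ^ m * G)) = 1 := by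
        rw [← AddChar.map_add_eq_mul, add_neg_cancel, AddChar.map_zero_eq_one]
      have e4 : (starRingEnd ℂ) (((Fintype.card F : ℂ) ^ (n - m))⁻¹) =
          ((Fintype.card F : ℂ) ^ (n - m))⁻¹ := by
        rw [map_inv₀, map_pow, Complex.conj_natCast]
      rw [map_mul, map_mul, e1, e2, e4]
      linear_combination (((Fintype.card F : ℂ) ^ (n - m))⁻¹ * ((Fintype.card F : ℂ) ^ (n - m))⁻¹ *
          ((starRingEnd ℂ) (Sn k n x0.2) * Sn l n x0.2 * x0.2 (-(X ^ m * H0)))) * e3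
    rw [Finset.sum_congr rfl hterm, Finset.sum_const, card_Mn, nsmul_eq_mul]
    push_cast
    have hq2 : (Fintype.card F : ℂ) ^ (n - m) * ((Fintype.card F : ℂ) ^ (n - m))⁻¹ = 1 :=
      mul_inv_cancel₀ (pow_ne_zero _ hq)
    linear_combination (((Fintype.card F : ℂ) ^ (n - m))⁻¹ *
          ((starRingEnd ℂ) (Sn k n x0.2) * Sn l n x0.2 * x0.2 (-(X ^ m * H0)))) * hq2
  · have hno : ∀ x ∈ SS F Q, ¬ (∀ g ∈ Lw F m, η g = x.2 g) := fun x hx hP => hex ⟨x, hx, hP⟩
    have hMe : ∀ (k : ℕ) (G : F[X]), Me k n m Q η G = 0 := by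
      intro k G
      rw [Me_eq]
      exact Finset.sum_eq_zero fun x hx => if_neg (hno x hx)
    rw [Finset.sum_eq_zero (s := SS F Q) fun x hx => if_neg (hno x hx)]
    refine Finset.sum_eq_zero fun G _ => ?_
    rw [hMe, hMe, mul_zero]

theorem hMQH (hACF : StACF) (hUNI : StUNI) : StMQH := by
  intro F _ _ k l n m Q H0 h hmn hQ hH0 hh
  classical
  have hq : (Fintype.card F : ℂ) ≠ 0 := by
    exact_mod_cast Fintype.card_ne_zero
  have hR : ∑ η ∈ ACf (X ^ m : F[X]), (∑ G ∈ Mn F (n - m),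
      (starRingEnd ℂ) (Me k n m Q η G) * Me l n m Q η (G + H0)) * η (-h) =
      ∑ x ∈ SS F Q, ((Fintype.card F : ℂ) ^ (n - m))⁻¹ * ((starRingEnd ℂ) (Sn k n x.2) *
        Sn l n x.2 * x.2 (-(X ^ m * H0))) * x.2 (-h) := by
    rw [Finset.sum_congr rfl (fun η _ => by
      rw [inner hACF hUNI k l n m Q H0 hQ η, Finset.sum_mul])]
    rw [Finset.sum_comm]
    refine Finset.sum_congr rfl fun x _ => ?_
    exact sum_one hACF m x.2 h hh _
  rw [hR]
  unfold MQ
  rw [sum_SS Q (fun (_ : F[X]) (ν : AddChar F[X] ℂ) =>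
    (starRingEnd ℂ) (Sn k n ν) * Sn l n ν * ν (-(X ^ m * H0 + h))), ← mul_assoc, Finset.mul_sum]
  have e0 : (Fintype.card F : ℂ) ^ m * ((Fintype.card F : ℂ) ^ n)⁻¹ =
      ((Fintype.card F : ℂ) ^ (n - m))⁻¹ := by
    have : (Fintype.card F : ℂ) ^ n = (Fintype.card F : ℂ) ^ m * (Fintype.card F : ℂ) ^ (n - m) := by
      rw [← pow_add, Nat.add_sub_cancel' hmn]
    rw [this, mul_inv, ← mul_assoc, mul_inv_cancel₀ (pow_ne_zero _ hq), one_mul]
  rw [e0]
  refine Finset.sum_congr rfl fun x _ => ?_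
  have e2 : x.2 (-(X ^ m * H0 + h)) = x.2 (-(X ^ m * H0)) * x.2 (-h) := by
    rw [← AddChar.map_add_eq_mul]
    congr 1
    ring
  rw [e2]
  ring

end Pool.Agent.Helper10.FC
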